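import Mathlib
import Pool.Agent.W953.NW.Eqv
import Pool.Agent.Results.MP_7713c5_lc.DepthNegations

/-!
# The lower bound for the number of NOT gates, for circuits
-/

set_option autoImplicit false

namespace Pool.Agent.W953.NW

open Pool.Agent.H540R2 Pool.Agent.H540R2.Circuit

variable {n : ℕ}

/-- a node as a wire; constants are replaced by a dummy variable -/
def wireOf (s : ℕ) (hs : 0 < s) (i0 : Fin n) : Node n → Fin n ⊕ Fin s
  | .var i => .inl i
  | .const _ => .inl i0
  | .gate j => if h : j < s then .inr ⟨j, h⟩ else .inr ⟨0, hs⟩

/-- the value of a node, given the bit on its wire -/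
def bitOf (a : Node n) (b : Bool) : Bool :=
  match a with
  | .var _ => b
  | .const c => c
  | .gate _ => b

/-- the left input of a gate -/
def lft : Gate n → Node n
  | .and a _ => a
  | .or a _ => a
  | .not a => a

/-- the right input of a gate -/
def rgt : Gate n → Node n
  | .and _ b => b
  | .or _ b => b
  | .not a => a

/-- the function of a gate -/
def opOf (g : Gate n) (b₀ b₁ : Bool) : Bool :=
  match g with
  | .and a b => bitOf a b₀ && bitOf b b₁
  | .or a b => bitOf a b₀ || bitOf b b₁
  | .not a => !(bitOf a b₀)

lemma bitOf_mono (a : Node n) {b c : Bool} (h : b ≤ c) : bitOf a b ≤ bitOf a c := by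
  cases a with
  | var i => exact h
  | const b => exact le_rfl
  | gate j => exact h

lemma opOf_mono {g : Gate n} (hg : g.isNot = false) {b₀ b₁ c₀ c₁ : Bool} (h0 : b₀ ≤ c₀)
    (h1 : b₁ ≤ c₁) : opOf g b₀ b₁ ≤ opOf g c₀ c₁ := by
  cases g with
  | and a b =>
    have e0 := bitOf_mono a h0
    have e1 := bitOf_mono b h1
    simp only [opOf]
    revert e0 e1
    cases bitOf a b₀ <;> cases bitOf a c₀ <;> cases bitOf b b₁ <;> cases bitOf b c₁ <;> simp
  | or a b =>
    have e0 := bitOf_mono a h0
    have e1 := bitOf_mono b h1
    simp only [opOf]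
    revert e0 e1
    cases bitOf a b₀ <;> cases bitOf a c₀ <;> cases bitOf b b₁ <;> cases bitOf b c₁ <;> simp
  | not a => simp [Gate.isNot] at hg

lemma bitOf_wire (s : ℕ) (hs : 0 < s) (i0 : Fin n) (x : Fin n → Bool) (v : ℕ → Bool)
    (u : Fin s → Bool) (a : Node n) (h : ∀ j, a.wires j ≠ 0 → ∃ hj : j < s, u ⟨j, hj⟩ = v j) :
    bitOf a (Sum.elim x u (wireOf s hs i0 a)) = a.eval x v := by
  cases a with
  | var i => rfl
  | const b => rfl
  | gate j =>
    obtain ⟨hj, hu⟩ := h j (by simp [Node.wires])
    simp only [bitOf, wireOf, dif_pos hj, Sum.elim_inr, Node.eval]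
    exact hu

lemma wireOf_inr {s : ℕ} {hs : 0 < s} {i0 : Fin n} {a : Node n} {k : Fin s}
    (h : wireOf s hs i0 a = Sum.inr k) (ha : ∀ j, a.wires j ≠ 0 → j < s) :
    a.wires k.val ≠ 0 := by
  cases a with
  | var i => simp [wireOf] at h
  | const b => simp [wireOf] at h
  | gate j =>
    have hj : j < s := ha j (by simp [Node.wires])
    simp only [wireOf, dif_pos hj] at h
    have : (⟨j, hj⟩ : Fin s) = k := Sum.inr.inj h
    rw [← this]
    simp [Node.wires]

lemma node_depth_of_wire {a : Node n} {d : ℕ → ℕ} {j : ℕ} (h : a.wires j ≠ 0) :
    a.depth d = d j := by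
  cases a with
  | var i => exact absurd rfl h
  | const b => exact absurd rfl h
  | gate k =>
    simp only [Node.wires] at h
    by_cases hk : k = j
    · rw [hk]; rfl
    · exact absurd (if_neg hk) h

lemma lft_depth (g : Gate n) (d : ℕ → ℕ) : (lft g).depth d + 1 ≤ g.depth d := by
  cases g with
  | and a b => simp only [lft, Gate.depth]; omega
  | or a b => simp only [lft, Gate.depth]; omega
  | not a => simp only [lft, Gate.depth]; omega

lemma rgt_depth (g : Gate n) (d : ℕ → ℕ) : (rgt g).depth d + 1 ≤ g.depth d := by
  cases g with
  | and a b => simp only [rgt, Gate.depth]; omega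
  | or a b => simp only [rgt, Gate.depth]; omega
  | not a => simp only [rgt, Gate.depth]; omega

lemma lft_wires {g : Gate n} {j : ℕ} (h : (lft g).wires j ≠ 0) : g.wires j ≠ 0 := by
  cases g with
  | and a b => simp only [lft, Gate.wires] at h ⊢; omega
  | or a b => simp only [lft, Gate.wires] at h ⊢; omega
  | not a => exact h

lemma rgt_wires {g : Gate n} {j : ℕ} (h : (rgt g).wires j ≠ 0) : g.wires j ≠ 0 := by
  cases g with
  | and a b => simp only [rgt, Gate.wires] at h ⊢; omega
  | or a b => simp only [rgt, Gate.wires] at h ⊢; omega
  | not a => exact h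

lemma opOf_eval (g : Gate n) (x : Fin n → Bool) (v : ℕ → Bool) (b₀ b₁ : Bool)
    (h0 : bitOf (lft g) b₀ = (lft g).eval x v) (h1 : bitOf (rgt g) b₁ = (rgt g).eval x v) :
    opOf g b₀ b₁ = g.eval x v := by
  cases g with
  | and a b => simp only [lft, rgt] at h0 h1; simp only [opOf, Gate.eval, h0, h1]
  | or a b => simp only [lft, rgt] at h0 h1; simp only [opOf, Gate.eval, h0, h1]
  | not a => simp only [lft] at h0; simp only [opOf, Gate.eval, h0]

lemma gateDepth_pos (C : Circuit n) (i : ℕ) (hi : i < C.size) : 1 ≤ C.gateDepth i := by
  rw [C.gateDepth_gate hi]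
  cases C.gate i <;> simp only [Gate.depth] <;> omega

/-- The hard functions, for circuits. -/
theorem hard (D N : ℕ) (hN : 68 * (D + 1) ^ 8 ≤ N) (hD : N < 2 ^ (D + 1)) :
    ∃ C : Circuit N, C.Monotone ∧ C.size ≤ 3 * N ∧
      ∀ C' : Circuit N, C.Equiv C' → C'.depth + 1 ≤ D →
        N / (68 * (D + 1) ^ 8) < 2 ^ C'.nots := by
  classical
  obtain ⟨f, ⟨g, b, l, r, v, o, hg, htop, hv, hvo⟩, hlow⟩ :=
    Pool.Agent.Results.MP_7713c5_lc.DepthNegations.result D N hN hD
  have hNpos : 0 < N := lt_of_lt_of_le (by positivity) hN
  have i0 : Fin N := ⟨0, hNpos⟩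
  -- the monotone circuit
  set nd : Fin N ⊕ Fin g → Node N := fun a => Sum.elim (fun i => .var i) (fun k => .gate k.val) a
    with hnd
  set C : Circuit N :=
    { size := g
      gate := fun i => if h : i < g then
          (if b ⟨i, h⟩ = true then .and (nd (l ⟨i, h⟩)) (nd (r ⟨i, h⟩)) else
            .or (nd (l ⟨i, h⟩)) (nd (r ⟨i, h⟩))) else .and (.const true) (.const true)
      out := .gate o.val
      gate_lt := by
        intro i hi j hj
        rw [dif_pos hi] at hj
        have hw : ∀ a : Fin N ⊕ Fin g, (nd a).wires j ≠ 0 → ∃ k : Fin g, a = Sum.inr k ∧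
            k.val = j := by
          intro a ha
          rcases a with i' | k
          · exact absurd rfl ha
          · refine ⟨k, rfl, ?_⟩
            simp only [hnd, Sum.elim_inr, Node.wires] at ha
            by_contra hne
            exact ha (if_neg hne)
        have hcase : (nd (l ⟨i, hi⟩)).wires j ≠ 0 ∨ (nd (r ⟨i, hi⟩)).wires j ≠ 0 := by
          split_ifs at hj
          · exact add_ne_zero_cases hj
          · exact add_ne_zero_cases hj
        rcases hcase with h | h
        · obtain ⟨k, hk1, hk2⟩ := hw _ h
          have := htop ⟨i, hi⟩ k (Or.inl hk1)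
          rw [← hk2]
          exact this
        · obtain ⟨k, hk1, hk2⟩ := hw _ h
          have := htop ⟨i, hi⟩ k (Or.inr hk1)
          rw [← hk2]
          exact this
      out_lt := by
        intro j hj
        simp only [Node.wires] at hj
        by_cases h : o.val = j
        · rw [← h]; exact o.isLt
        · exact absurd (if_neg h) hj } with hC
  have hCval : ∀ x, ∀ i : Fin g, C.val x i.val = v x i := by
    intro x i
    obtain ⟨i, hi⟩ := i
    induction i using Nat.strong_induction_on with
    | _ i ih =>
      rw [C.val_gate (show i < C.size from hi), hv]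
      have hgate : C.gate i = if b ⟨i, hi⟩ = true then .and (nd (l ⟨i, hi⟩)) (nd (r ⟨i, hi⟩)) else
            .or (nd (l ⟨i, hi⟩)) (nd (r ⟨i, hi⟩)) := dif_pos hi
      have hnode : ∀ a : Fin N ⊕ Fin g, (∀ k, a = Sum.inr k → k < ⟨i, hi⟩) →
          (nd a).eval x (C.val x) = Sum.elim x (v x) a := by
        intro a ha
        rcases a with i' | k
        · rfl
        · exact ih k.val (ha k rfl) k.isLt
      have h1 := hnode (l ⟨i, hi⟩) (fun k hk => htop ⟨i, hi⟩ k (Or.inl hk))
      have h2 := hnode (r ⟨i, hi⟩) (fun k hk => htop ⟨i, hi⟩ k (Or.inr hk))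
      rw [hgate]
      by_cases hb : b ⟨i, hi⟩ = true
      · rw [if_pos hb, if_pos hb]
        simp only [Gate.eval]
        rw [h1, h2]
      · rw [if_neg hb, if_neg hb]
        simp only [Gate.eval]
        rw [h1, h2]
  have hCf : ∀ x, C.eval x = f x := by
    intro x
    rw [← hvo x]
    exact hCval x o
  refine ⟨C, ?_, hg, ?_⟩
  · intro i hi a h
    have hgate : C.gate i = if b ⟨i, hi⟩ = true then .and (nd (l ⟨i, hi⟩)) (nd (r ⟨i, hi⟩)) else
            .or (nd (l ⟨i, hi⟩)) (nd (r ⟨i, hi⟩)) := dif_pos hi
    rw [hgate] at h
    split_ifs at h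
  · intro C' hEq hdep
    set s := C'.size + 1 with hs
    have hs0 : 0 < s := Nat.succ_pos _
    -- shallow gates
    set sh : ℕ → Prop := fun i => i < C'.size ∧ C'.gateDepth i + 1 ≤ D with hsh
    set T : Finset (Fin s) := Finset.univ.filter
      (fun i => sh i.val ∧ (C'.gate i.val).isNot = true) with hT
    set w : Fin s → ℕ := fun i => if i ∈ T then 1 else 2 with hw
    set A : Fin s → ℕ → Fin N ⊕ Fin s := fun i j =>
      if sh i.val then (if j = 0 then wireOf s hs0 i0 (lft (C'.gate i.val)) else
        wireOf s hs0 i0 (rgt (C'.gate i.val)))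
      else if i.val = C'.size then wireOf s hs0 i0 C'.out else Sum.inl i0 with hA
    set G : Fin s → Bool → Bool → Bool := fun i b₀ b₁ =>
      if sh i.val then opOf (C'.gate i.val) b₀ b₁
      else if i.val = C'.size then bitOf C'.out b₀ else false with hG
    set val : (Fin N → Bool) → Fin s → Bool := fun x i =>
      if sh i.val then C'.val x i.val else if i.val = C'.size then C'.eval x else false with hval
    set dep : Fin s → ℕ := fun i =>
      if sh i.val then C'.gateDepth i.val else if i.val = C'.size then D else 1 with hdp
    have hD1 : 1 ≤ D := by omega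
    have hnot : ∀ j : ℕ, j = C'.size → ¬ sh j := fun j hj h => by
      have := h.1
      omega
    have hout : ∀ j, C'.out.wires j ≠ 0 → sh j := by
      intro j hj
      refine ⟨C'.out_lt j hj, ?_⟩
      have : C'.depth = C'.gateDepth j := node_depth_of_wire hj
      omega
    have hchild : ∀ i, sh i → ∀ j, (C'.gate i).wires j ≠ 0 → j < i := fun i hi j hj =>
      C'.gate_lt i hi.1 j hj
    have hlsh : ∀ i, sh i → ∀ j, (lft (C'.gate i)).wires j ≠ 0 →
        sh j ∧ C'.gateDepth j < C'.gateDepth i := by
      intro i hi j hj
      have h1 := hchild i hi j (lft_wires hj)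
      have h2 := lft_depth (C'.gate i) C'.gateDepth
      rw [node_depth_of_wire hj, ← C'.gateDepth_gate hi.1] at h2
      exact ⟨⟨h1.trans hi.1, by have := hi.2; omega⟩, by omega⟩
    have hrsh : ∀ i, sh i → ∀ j, (rgt (C'.gate i)).wires j ≠ 0 →
        sh j ∧ C'.gateDepth j < C'.gateDepth i := by
      intro i hi j hj
      have h1 := hchild i hi j (rgt_wires hj)
      have h2 := rgt_depth (C'.gate i) C'.gateDepth
      rw [node_depth_of_wire hj, ← C'.gateDepth_gate hi.1] at h2
      exact ⟨⟨h1.trans hi.1, by have := hi.2; omega⟩, by omega⟩
    have hdepT : ∀ i, 1 ≤ dep i ∧ dep i ≤ D := by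
      intro i
      simp only [hdp]
      split_ifs with h1 h2
      · exact ⟨gateDepth_pos C' _ h1.1, by have := h1.2; omega⟩
      · exact ⟨hD1, le_rfl⟩
      · exact ⟨le_rfl, hD1⟩
    have hvalsh : ∀ x, ∀ j (hj : j < s), sh j → val x ⟨j, hj⟩ = C'.val x j := by
      intro x j hj h
      simp only [hval]
      rw [if_pos h]
    have hmain := hlow s T w (fun i j => A i j.val) dep hdepT
      (by
        intro i j k h
        simp only [hA] at h
        by_cases h1 : sh i.val
        · rw [if_pos h1] at h
          have hlt : ∀ a : Node N, wireOf s hs0 i0 a = Sum.inr k →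
              (∀ j, a.wires j ≠ 0 → sh j ∧ C'.gateDepth j < C'.gateDepth i.val ∧ j < i.val) →
              k < i ∧ dep k < dep i := by
            intro a ha haw
            have h2 := wireOf_inr ha (fun j hj => by
              have := (haw j hj).1.1
              omega)
            obtain ⟨h3, h4, h5⟩ := haw k.val h2
            refine ⟨h5, ?_⟩
            simp only [hdp]
            rw [if_pos h3, if_pos h1]
            exact h4
          split_ifs at h
          · exact hlt _ h (fun j hj => ⟨(hlsh i.val h1 j hj).1, (hlsh i.val h1 j hj).2,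
              hchild i.val h1 j (lft_wires hj)⟩)
          · exact hlt _ h (fun j hj => ⟨(hrsh i.val h1 j hj).1, (hrsh i.val h1 j hj).2,
              hchild i.val h1 j (rgt_wires hj)⟩)
        · rw [if_neg h1] at h
          by_cases h2 : i.val = C'.size
          · rw [if_pos h2] at h
            have h3 := wireOf_inr h (fun j hj => by
              have := (hout j hj).1
              omega)
            have h4 := hout k.val h3
            refine ⟨?_, ?_⟩
            · rw [Fin.lt_def, h2]
              exact h4.1
            · simp only [hdp]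
              rw [if_pos h4, if_neg h1, if_pos h2]
              have := h4.2
              omega
          · rw [if_neg h2] at h
            exact absurd h (by simp))
      (fun i bb => G i (if h : 0 < w i then bb ⟨0, h⟩ else false)
        (if h : 1 < w i then bb ⟨1, h⟩ else false))
      (by
        intro i hi
        have hwi : w i = 2 := by simp only [hw]; rw [if_neg hi]
        refine ⟨hwi.le, ?_⟩
        intro u u' huu
        have e0 : (if h : 0 < w i then u ⟨0, h⟩ else false) ≤
            (if h : 0 < w i then u' ⟨0, h⟩ else false) := by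
          split_ifs with h
          · exact huu _
          · exact le_rfl
        have e1 : (if h : 1 < w i then u ⟨1, h⟩ else false) ≤
            (if h : 1 < w i then u' ⟨1, h⟩ else false) := by
          split_ifs with h
          · exact huu _
          · exact le_rfl
        show G i _ _ ≤ G i _ _
        simp only [hG]
        by_cases h1 : sh i.val
        · rw [if_pos h1, if_pos h1]
          have h2 : (C'.gate i.val).isNot = false := by
            by_contra hne
            apply hi
            rw [hT, Finset.mem_filter]
            exact ⟨Finset.mem_univ _, h1, by simpa using hne⟩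
          exact opOf_mono h2 e0 e1
        · rw [if_neg h1, if_neg h1]
          by_cases h2 : i.val = C'.size
          · rw [if_pos h2, if_pos h2]
            exact bitOf_mono _ e0
          · rw [if_neg h2, if_neg h2])
      val (fun x i j => Sum.elim x (val x) (A i j.val)) (fun x i j => rfl)
      (by
        intro x i
        have hw0 : 0 < w i := by simp only [hw]; split_ifs <;> norm_num
        show val x i = G i _ _
        rw [dif_pos hw0]
        by_cases h1 : sh i.val
        · have e0 : val x i = C'.val x i.val := hvalsh x i.val i.isLt h1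
          have eA0 : A i 0 = wireOf s hs0 i0 (lft (C'.gate i.val)) := by
            simp only [hA]
            rw [if_pos h1]
            simp
          have eA1 : A i 1 = wireOf s hs0 i0 (rgt (C'.gate i.val)) := by
            simp only [hA]
            rw [if_pos h1]
            simp
          rw [e0, C'.val_gate h1.1]
          simp only [hG]
          rw [if_pos h1]
          have hL : bitOf (lft (C'.gate i.val)) (Sum.elim x (val x) (A i 0)) =
              (lft (C'.gate i.val)).eval x (C'.val x) := by
            rw [eA0]
            apply bitOf_wire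
            intro j hj
            have h3 := (hlsh i.val h1 j hj).1
            exact ⟨by have := h3.1; omega, hvalsh x j _ h3⟩
          have hR : bitOf (rgt (C'.gate i.val)) (Sum.elim x (val x) (A i 1)) =
              (rgt (C'.gate i.val)).eval x (C'.val x) := by
            rw [eA1]
            apply bitOf_wire
            intro j hj
            have h3 := (hrsh i.val h1 j hj).1
            exact ⟨by have := h3.1; omega, hvalsh x j _ h3⟩
          by_cases hiT : i ∈ T
          · -- a NOT gate
            have hn : (C'.gate i.val).isNot = true := by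
              rw [hT, Finset.mem_filter] at hiT
              exact hiT.2.2
            have hw1 : ¬ 1 < w i := by simp only [hw]; rw [if_pos hiT]; norm_num
            rw [dif_neg hw1]
            cases hgg : C'.gate i.val with
            | and a b => rw [hgg] at hn; simp [Gate.isNot] at hn
            | or a b => rw [hgg] at hn; simp [Gate.isNot] at hn
            | not a =>
              rw [hgg] at hL
              simp only [lft] at hL
              simp only [opOf, Gate.eval]
              rw [hL]
          · have hw1 : 1 < w i := by simp only [hw]; rw [if_neg hiT]; norm_num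
            rw [dif_pos hw1]
            exact (opOf_eval _ x (C'.val x) _ _ hL hR).symm
        · simp only [hval, hG]
          rw [if_neg h1, if_neg h1]
          by_cases h2 : i.val = C'.size
          · rw [if_pos h2, if_pos h2]
            have eA0 : A i 0 = wireOf s hs0 i0 C'.out := by
              simp only [hA]
              rw [if_neg h1, if_pos h2]
            have := bitOf_wire s hs0 i0 x (C'.val x) (val x) C'.out (fun j hj =>
              ⟨by have := (hout j hj).1; omega, hvalsh x j _ (hout j hj)⟩)
            rw [← eA0] at this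
            exact this.symm
          · rw [if_neg h2, if_neg h2])
      ⟨C'.size, Nat.lt_succ_self _⟩
      (by
        intro x
        simp only [hval]
        rw [if_neg (hnot _ rfl), if_pos trivial, ← hEq x, hCf])
    refine lt_of_lt_of_le hmain.1 ?_
    have hprod : ∏ i ∈ T, (w i + 1) = 2 ^ T.card := by
      rw [← Finset.prod_const]
      refine Finset.prod_congr rfl (fun i hi => ?_)
      simp only [hw]
      rw [if_pos hi]
    rw [hprod]
    apply Nat.pow_le_pow_right (by norm_num)
    unfold Circuit.nots
    refine Finset.card_le_card_of_injOn (fun i => i.val) (fun i hi => ?_)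
      (fun i _ j _ h => Fin.ext h)
    have hi' := (Finset.mem_filter.mp (Finset.mem_coe.mp hi)).2
    exact Finset.mem_coe.mpr (Finset.mem_filter.mpr ⟨Finset.mem_range.mpr hi'.1.1, hi'.2⟩)

end Pool.Agent.W953.NW
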