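import Mathlib
import Pool.Agent.W953.NW.Low

/-!
# Polylogarithmically many slices are too many
-/

set_option autoImplicit false

namespace Pool.Agent.W953.NW

open Pool.Agent.H540R2 Pool.Agent.H540R2.Circuit

variable {n : ℕ}

/-- The lower bound for NOT gates, and for windows. -/
theorem hard_windows (D N : ℕ) (hN : 68 * (D + 1) ^ 8 ≤ N) (hD : N < 2 ^ (D + 1)) :
    ∃ C : Circuit N, C.Monotone ∧ C.size ≤ 3 * N ∧
      (∀ C' : Circuit N, C.Equiv C' → C'.depth + 1 ≤ D →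
        N < 2 ^ C'.nots * (68 * (D + 1) ^ 8)) ∧
      ∃ k, ∀ C' : Circuit N, C'.Monotone → C'.depth + 15 * Nat.log 2 N + 22 ≤ D →
        ∃ x, k ≤ wt x ∧ wt x < k + 136 * (D + 1) ^ 8 ∧ C'.eval x ≠ C.eval x := by
  obtain ⟨C, hC1, hC2, hC3⟩ := hard D N hN hD
  obtain ⟨X, hX⟩ : ∃ X, X = 68 * (D + 1) ^ 8 := ⟨_, rfl⟩
  have hX1 : 0 < X := by rw [hX]; positivity
  have hW : 136 * (D + 1) ^ 8 = 2 * X := by rw [hX]; ring
  rw [← hX] at hC3 hN
  rw [← hX, hW]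
  refine ⟨C, hC1, hC2, fun C' hE hd => (Nat.div_lt_iff_lt_mul hX1).mp (hC3 C' hE hd), ?_⟩
  by_contra hcon
  push Not at hcon
  choose F hF1 hF2 hF3 using hcon
  have hsup : ∀ k ≤ N, (F k).size ≤ ∑ j ∈ Finset.range (N + 1), (F j).size := fun k hk =>
    Finset.single_le_sum (f := fun j => (F j).size) (fun _ _ => Nat.zero_le _)
      (Finset.mem_range.mpr (by omega))
  obtain ⟨A, hA⟩ : ∃ A, A = ∑ j ∈ Finset.range (N + 1), (F j).size := ⟨_, rfl⟩
  rw [← hA] at hsup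
  have hW0 : 0 < 2 * X := by omega
  have hq1 : 1 ≤ N / X := (Nat.one_le_div_iff hX1).mpr hN
  obtain ⟨r, hr1, hr2, hrL⟩ : ∃ r, N < 2 * X * 2 ^ r ∧ 2 ^ r ≤ N / X ∧ r ≤ Nat.log 2 N + 1 := by
    by_cases h : N < 2 * X
    · exact ⟨0, by simpa using h, by simpa using hq1, by omega⟩
    · have hdiv : 1 ≤ N / (2 * X) := (Nat.one_le_div_iff hW0).mpr (by omega)
      refine ⟨Nat.log 2 (N / (2 * X)) + 1, ?_, ?_, ?_⟩
      · have h1 : N / (2 * X) < 2 ^ (Nat.log 2 (N / (2 * X)) + 1) :=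
          Nat.lt_pow_succ_log_self (by norm_num) _
        have h2 := (Nat.div_lt_iff_lt_mul hW0).mp h1
        rwa [Nat.mul_comm]
      · have h1 : 2 ^ (Nat.log 2 (N / (2 * X)) + 1) ≤ 2 * (N / (2 * X)) := by
          rw [pow_succ, Nat.mul_comm]
          exact Nat.mul_le_mul_left _ (Nat.pow_log_le_self 2 (by omega))
        refine h1.trans ?_
        rw [Nat.le_div_iff_mul_le hX1]
        calc 2 * (N / (2 * X)) * X = N / (2 * X) * (2 * X) := by ring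
          _ ≤ N := Nat.div_mul_le_self N _
      · exact Nat.succ_le_succ (Nat.log_mono_right (Nat.div_le_self _ _))
  have hF0 := hF2 0
  obtain ⟨C', e1, e2, -, e4⟩ := mux (f := C.eval) (A := A) (D := D - 15 * Nat.log 2 N - 22)
    (2 * X) r hW0 hr1 (fun k => by
    by_cases hk : k ≤ N
    · refine ⟨(F k).eval, ⟨F k, hF1 k, hsup k hk, ?_, fun _ => rfl⟩, fun x hx1 hx2 => ?_⟩
      · have := hF2 k
        omega
      · exact hF3 k x hx1 (by omega)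
    · refine ⟨fun _ => true, MC.const true _ _, fun x hx1 _ => ?_⟩
      have := wt_le x
      omega)
  have h1 : tde N = 12 * Nat.log 2 N + 18 := rfl
  have hq := hC3 C' (fun x => (e4 x).symm) (by
    rcases le_total (D - 15 * Nat.log 2 N - 22) (tde N) with h | h
    · rw [max_eq_right h] at e2
      omega
    · rw [max_eq_left h] at e2
      omega)
  have h2 : 2 ^ C'.nots ≤ 2 ^ r := Nat.pow_le_pow_right (by norm_num) e1
  omega

lemma pow_lt_two_pow (M : ℕ) : ∃ L₀ : ℕ, ∀ L ≥ L₀, L ^ M < 2 ^ L := by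
  have h := tendsto_pow_const_div_const_pow_of_one_lt M (r := (2 : ℝ)) (by norm_num)
  have h1 := (h.eventually (gt_mem_nhds (show (0 : ℝ) < 1 by norm_num)))
  obtain ⟨L₀, hL₀⟩ := Filter.eventually_atTop.mp h1
  refine ⟨L₀, fun L hL => ?_⟩
  have h2 := hL₀ L hL
  rw [div_lt_one (by positivity)] at h2
  exact_mod_cast h2

/-- Polylogarithmically many slices, or `log n - O(log log n)` NOT gates. -/
theorem tooMany {i : ℕ} (hi : 1 ≤ i) (c : ℕ) : ∃ n₀ : ℕ, ∀ n ≥ n₀, ∃ C : Circuit n,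
    C.Monotone ∧ C.size ≤ 3 * n ∧
    (∀ C' : Circuit n, C.Equiv C' → C'.depth ≤ c * Nat.log 2 n ^ i →
      Nat.log 2 n < C'.nots + (8 * i + 1) * Nat.log 2 (Nat.log 2 n)) ∧
    ∃ k, ∀ C' : Circuit n, C'.Monotone → C'.depth ≤ c * Nat.log 2 n ^ i →
      ∃ x, k ≤ wt x ∧ wt x ≤ k + Nat.log 2 n ^ (8 * i + 1) ∧ C'.eval x ≠ C.eval x := by
  obtain ⟨B, hB⟩ : ∃ B, B = 68 * (c + 41) ^ 8 := ⟨_, rfl⟩
  have hB1 : 68 ≤ B := by
    rw [hB]
    exact Nat.le_mul_of_pos_right _ (by positivity)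
  obtain ⟨M, hM⟩ : ∃ M, M = 8 * i + 1 := ⟨_, rfl⟩
  obtain ⟨L₂, hL₂⟩ := pow_lt_two_pow M
  refine ⟨2 ^ (2 ^ M * B + L₂), fun n hn => ?_⟩
  obtain ⟨L, hL⟩ : ∃ L, L = Nat.log 2 n := ⟨_, rfl⟩
  rw [← hL, ← hM]
  have hn0 : n ≠ 0 := by
    have : 0 < 2 ^ (2 ^ M * B + L₂) := by positivity
    omega
  have hLB' : 2 ^ M * B + L₂ ≤ L := by
    rw [hL]
    exact (Nat.le_log_iff_pow_le (by norm_num) hn0).mpr hn
  have hLB : 2 ^ M * B ≤ L := by omega
  have hLn : 2 ^ L ≤ n := by rw [hL]; exact Nat.pow_log_le_self 2 hn0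
  have hnL : n < 2 ^ (L + 1) := by rw [hL]; exact Nat.lt_pow_succ_log_self (by norm_num) n
  have hM2 : 2 ≤ 2 ^ M := by
    calc 2 = 2 ^ 1 := rfl
      _ ≤ 2 ^ M := Nat.pow_le_pow_right (by norm_num) (by omega)
  have hL1 : 1 ≤ L := by nlinarith
  have h9 := hL₂ L (by omega)
  have hLi : L ≤ L ^ i := Nat.le_self_pow (by omega) _
  obtain ⟨D, hD⟩ : ∃ D, D = (c + 40) * L ^ i := ⟨_, rfl⟩
  have hDL : c * L ^ i + 15 * L + 22 ≤ D := by
    rw [hD]
    have : (c + 40) * L ^ i = c * L ^ i + 40 * L ^ i := by ring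
    omega
  have hXB : 68 * (D + 1) ^ 8 ≤ B * L ^ (8 * i) := by
    have h1 : D + 1 ≤ (c + 41) * L ^ i := by
      rw [hD]
      have : (c + 41) * L ^ i = (c + 40) * L ^ i + L ^ i := by ring
      omega
    calc 68 * (D + 1) ^ 8 ≤ 68 * ((c + 41) * L ^ i) ^ 8 :=
          Nat.mul_le_mul_left _ (Nat.pow_le_pow_left h1 8)
      _ = B * L ^ (8 * i) := by rw [hB, mul_pow, ← pow_mul, Nat.mul_comm i 8]; ring
  have hXM : 2 ^ M * (68 * (D + 1) ^ 8) ≤ L ^ M := by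
    calc 2 ^ M * (68 * (D + 1) ^ 8) ≤ 2 ^ M * (B * L ^ (8 * i)) := Nat.mul_le_mul_left _ hXB
      _ = (2 ^ M * B) * L ^ (8 * i) := by ring
      _ ≤ L * L ^ (8 * i) := Nat.mul_le_mul_right _ hLB
      _ = L ^ M := by rw [hM, pow_succ']
  have hX2 : 2 * (68 * (D + 1) ^ 8) ≤ L ^ M :=
    (Nat.mul_le_mul_right _ hM2).trans hXM
  obtain ⟨C, hC1, hC2, hC3, k, hk⟩ := hard_windows D n (by omega)
    (lt_of_lt_of_le hnL (Nat.pow_le_pow_right (by norm_num) (by omega)))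
  rw [← hL] at hk
  refine ⟨C, hC1, hC2, fun C' hE hd => ?_, k, fun C' hm hd => ?_⟩
  · by_contra hcon
    have hcon' : C'.nots + M * Nat.log 2 L ≤ L := by omega
    have h1 := hC3 C' hE (by omega)
    have h2 : 2 ^ C'.nots * (2 ^ Nat.log 2 L) ^ M ≤ 2 ^ L := by
      rw [← pow_mul, ← pow_add, Nat.mul_comm (Nat.log 2 L) M]
      exact Nat.pow_le_pow_right (by norm_num) hcon'
    have h3 : L < 2 * 2 ^ Nat.log 2 L := by
      have := Nat.lt_pow_succ_log_self (b := 2) (by norm_num) L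
      rw [pow_succ] at this
      omega
    have h4 : L ^ M ≤ (2 * 2 ^ Nat.log 2 L) ^ M := Nat.pow_le_pow_left h3.le M
    rw [mul_pow] at h4
    have h6 : 68 * (D + 1) ^ 8 ≤ (2 ^ Nat.log 2 L) ^ M :=
      Nat.le_of_mul_le_mul_left (hXM.trans h4) (by positivity)
    have h7 := Nat.mul_le_mul_left (2 ^ C'.nots) h6
    omega
  · obtain ⟨x, h1, h2, h3⟩ := hk C' hm (by omega)
    exact ⟨x, h1, by omega, h3⟩

end Pool.Agent.W953.NW
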